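import Mathlib
import Pool.Agent.H27.Kozy

namespace Pool.Agent.Results.MP_8c8deb_an.NotUniform

open Pool.Agent.H27.Kozy
open scoped Matrix.Norms.Elementwise

theorem result : ∃ SA SB : Finset (Matrix (Fin 2) (Fin 2) ℝ),
    SA.Nonempty ∧ SB.Nonempty ∧ CondH SA SB ∧
    ∀ C : ℝ, ∃ A : ℕ → Matrix (Fin 2) (Fin 2) ℝ, (∀ n, A n ∈ SA) ∧
      ¬ ∃ B : ℕ → Matrix (Fin 2) (Fin 2) ℝ, (∀ n, B n ∈ SB) ∧
        ∀ n, 1 ≤ n → ‖prodP A B n‖ ≤ C := by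
  classical
  refine ⟨{a0, a1}, {1, b1}, by simp, by simp, condH, fun C => ?_⟩
  obtain ⟨A, hA, h⟩ := notUnif C
  refine ⟨A, hA, ?_⟩
  rintro ⟨B, hB, hb⟩
  obtain ⟨n, h1, h2⟩ := h B hB
  exact absurd (hb n h1) (not_le.2 h2)

end Pool.Agent.Results.MP_8c8deb_an.NotUniform
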